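import Pool.Agent.R200.IeFib2

/-!
# MP_ef06cf_an: the random Fibonacci subshift is intrinsically ergodic
-/

open Pool.Agent.R200.Ie MeasureTheory Filter Topology in
/-- There is exactly one measure of maximal entropy `μ`; its cylinder weights are the limits of
the mean frequencies over the words of `ϑ^n(a)` (uniform distribution on `ϑ^n(a)`). -/
theorem Pool.Agent.Results.MP_ef06cf_an.IntrinsicallyErgodic.result :
    ∃ (μ : Measure (ℤ → Bool)) (h : ℝ), IsMME (Subshift thF) μ h ∧
      (∀ (ν : Measure (ℤ → Bool)) (h' : ℝ), IsMME (Subshift thF) ν h' → ν = μ) ∧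
      ∀ S : ℕ → Finset (List Bool), (∀ n w, w ∈ S n ↔ Iter thF n [false] w) →
        ∀ v : List Bool, v ≠ [] →
          Tendsto (fun n => (∑ w ∈ S n, (occ v w : ℝ) / w.length) / ((S n).card : ℝ)) atTop
            (𝓝 (μ.real {x | win x 0 v.length = v})) := by
  obtain ⟨μ, h, h1, h2, -, h3⟩ := fib_main
  refine ⟨μ, h, h1, fun ν h' hν => mme_unique h1 h3 hν, ?_⟩
  intro S hS v hv
  have hSW : ∀ n, S n = WF (n + 1) := by
    intro n
    ext w
    rw [hS, (mem_WF n w).2]
  have h4 := (FFb_lim hv).1.comp (tendsto_add_atTop_nat 1)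
  rw [← h2 v] at h4
  refine h4.congr fun n => ?_
  rw [hSW]
  simp only [Function.comp_apply]
  unfold mn avg
  rw [div_right_comm, Finset.sum_div]
  congr 1
  apply Finset.sum_congr rfl
  intro w hw
  rw [WF_len _ w hw]
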